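import Pool.Agent.H29.HP.Defs

set_option autoImplicit false

/-! Measurability of cluster events, translations, boxes. -/

namespace Pool.Agent.H61.HP

open MeasureTheory Pool.Agent.H29.FK Pool.Agent.H29.HP
open Classical

variable {d : ℕ}

/-- there is an open path of length `n` -/
def RN (ω : Cfg d) : ℕ → (Fin d → ℤ) → (Fin d → ℤ) → Prop
  | 0, x, y => x = y
  | n + 1, x, y => ∃ z, RN ω n x z ∧ Opn ω z y

theorem rtg_iff (ω : Cfg d) (x y : Fin d → ℤ) :
    Relation.ReflTransGen (Opn ω) x y ↔ ∃ n, RN ω n x y := by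
  constructor
  · intro h
    induction h with
    | refl => exact ⟨0, rfl⟩
    | tail _ hbc ih =>
      obtain ⟨n, hn⟩ := ih
      exact ⟨n + 1, _, hn, hbc⟩
  · rintro ⟨n, hn⟩
    induction n generalizing y with
    | zero => rw [show x = y from hn]
    | succ n ih =>
      obtain ⟨z, hz, hzy⟩ := hn
      exact (ih z hz).tail hzy

theorem meas_opn (a b : Fin d → ℤ) : MeasurableSet {ω : Cfg d | Opn ω a b} := by
  by_cases h : NN s(a, b)
  · have : {ω : Cfg d | Opn ω a b} = {ω : Cfg d | ω ⟨s(a, b), h⟩ = true} := by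
      ext ω
      exact ⟨fun ⟨_, h'⟩ => h', fun h' => ⟨h, h'⟩⟩
    rw [this]
    exact meas_edge _ _
  · have : {ω : Cfg d | Opn ω a b} = ∅ := by
      ext ω
      constructor
      · rintro ⟨h', _⟩
        exact absurd h' h
      · intro h'
        exact absurd h' (Set.notMem_empty _)
    rw [this]
    exact MeasurableSet.empty

theorem meas_RN (n : ℕ) (x y : Fin d → ℤ) : MeasurableSet {ω : Cfg d | RN ω n x y} := by
  induction n generalizing y with
  | zero => exact MeasurableSet.const _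
  | succ n ih =>
    have : {ω : Cfg d | RN ω (n + 1) x y} = ⋃ z, ({ω : Cfg d | RN ω n x z} ∩ {ω | Opn ω z y}) := by
      ext ω
      simp only [Set.mem_iUnion]
      rfl
    rw [this]
    exact MeasurableSet.iUnion fun z => (ih z).inter (meas_opn z y)

/-- `y` lies in the cluster of `x`: a measurable event -/
theorem meas_mem_clus (x y : Fin d → ℤ) : MeasurableSet {ω : Cfg d | y ∈ clus ω x} := by
  have : {ω : Cfg d | y ∈ clus ω x} = ⋃ n, {ω : Cfg d | RN ω n x y} := by
    ext ω
    rw [Set.mem_iUnion]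
    exact rtg_iff ω x y
  rw [this]
  exact MeasurableSet.iUnion fun n => meas_RN n x y

theorem inf_iff (s : Set (Fin d → ℤ)) : s.Infinite ↔ ∀ F : Finset (Fin d → ℤ), ∃ y, y ∉ F ∧ y ∈ s := by
  constructor
  · intro h F
    obtain ⟨y, hy, hyF⟩ := h.exists_notMem_finset F
    exact ⟨y, hyF, hy⟩
  · intro h hfin
    obtain ⟨y, hy, hys⟩ := h hfin.toFinset
    exact hy (hfin.mem_toFinset.2 hys)

/-- the cluster of `x` is infinite: a measurable event -/
theorem meas_inf (x : Fin d → ℤ) : MeasurableSet {ω : Cfg d | (clus ω x).Infinite} := by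
  have : {ω : Cfg d | (clus ω x).Infinite} =
      ⋂ F : Finset (Fin d → ℤ), ⋃ y : Fin d → ℤ, ({_ω : Cfg d | y ∉ F} ∩ {ω | y ∈ clus ω x}) := by
    ext ω
    rw [Set.mem_iInter]
    simp only [Set.mem_iUnion]
    exact inf_iff (clus ω x)
  rw [this]
  exact MeasurableSet.iInter fun F => MeasurableSet.iUnion fun y =>
    (MeasurableSet.const _).inter (meas_mem_clus x y)

/-- two distinct infinite clusters -/
def EE (d : ℕ) : Set (Cfg d) :=
  {ω | ∃ u v : Fin d → ℤ, (clus ω u).Infinite ∧ (clus ω v).Infinite ∧ v ∉ clus ω u}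

theorem meas_EE : MeasurableSet (EE d) := by
  have : EE d = ⋃ u : Fin d → ℤ, ⋃ v : Fin d → ℤ, ({ω : Cfg d | (clus ω u).Infinite} ∩
      ({ω | (clus ω v).Infinite} ∩ {ω | v ∈ clus ω u}ᶜ)) := by
    ext ω
    simp only [Set.mem_iUnion]
    rfl
  rw [this]
  exact MeasurableSet.iUnion fun u => MeasurableSet.iUnion fun v =>
    (meas_inf u).inter ((meas_inf v).inter (meas_mem_clus u v).compl)

theorem clus_ne_iff (ω : Cfg d) (u v : Fin d → ℤ) : clus ω u ≠ clus ω v ↔ v ∉ clus ω u := by
  constructor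
  · intro h hv
    exact h (clus_eq hv)
  · intro h he
    exact h (he ▸ clus_self ω v)

/-! ### Translations -/

theorem nn_shift (z a b : Fin d → ℤ) : NN s(a, b) ↔ NN s(a + z, b + z) := by
  constructor
  · intro h
    exact nn_add z ⟨s(a, b), h⟩
  · intro h
    have h1 := nn_add (-z) ⟨s(a + z, b + z), h⟩
    have e : Sym2.map (fun x => x + -z) s(a + z, b + z) = s(a, b) := by
      rw [Sym2.map_mk]
      simp
    rw [e] at h1
    exact h1

theorem opn_sh (z : Fin d → ℤ) (ω : Cfg d) (a b : Fin d → ℤ) :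
    Opn (sh z ω) a b ↔ Opn ω (a + z) (b + z) := by
  constructor
  · rintro ⟨h, h'⟩
    exact ⟨(nn_shift z a b).1 h, h'⟩
  · rintro ⟨h, h'⟩
    exact ⟨(nn_shift z a b).2 h, h'⟩

theorem mem_clus_sh (z : Fin d → ℤ) (ω : Cfg d) (x y : Fin d → ℤ) :
    y ∈ clus (sh z ω) x ↔ y + z ∈ clus ω (x + z) := by
  constructor
  · intro h
    exact Relation.ReflTransGen.lift (fun a => a + z) (fun a b hab => (opn_sh z ω a b).1 hab) _ _ h
  · intro h
    have h1 := Relation.ReflTransGen.lift (p := Opn (sh z ω)) (fun a => a - z)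
      (fun a b hab => (opn_sh z ω (a - z) (b - z)).2 (by
        rw [sub_add_cancel, sub_add_cancel]; exact hab)) _ _ h
    have h2 : Relation.ReflTransGen (Opn (sh z ω)) (x + z - z) (y + z - z) := h1
    rw [add_sub_cancel_right, add_sub_cancel_right] at h2
    exact h2

theorem inf_sh (z : Fin d → ℤ) (ω : Cfg d) (x : Fin d → ℤ) :
    (clus (sh z ω) x).Infinite ↔ (clus ω (x + z)).Infinite := by
  have h : clus ω (x + z) = (fun a => a + z) '' clus (sh z ω) x := by
    ext y
    constructor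
    · intro hy
      refine ⟨y - z, (mem_clus_sh z ω x (y - z)).2 (by rw [sub_add_cancel]; exact hy), ?_⟩
      exact sub_add_cancel y z
    · rintro ⟨a, ha, rfl⟩
      exact (mem_clus_sh z ω x a).1 ha
  rw [h, Set.infinite_image_iff (add_left_injective z).injOn]

theorem sh_EE (z : Fin d → ℤ) : sh z ⁻¹' EE d = EE d := by
  ext ω
  constructor
  · rintro ⟨u, v, hu, hv, huv⟩
    exact ⟨u + z, v + z, (inf_sh z ω u).1 hu, (inf_sh z ω v).1 hv,
      fun h => huv ((mem_clus_sh z ω u v).2 h)⟩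
  · rintro ⟨u, v, hu, hv, huv⟩
    refine ⟨u - z, v - z, (inf_sh z ω _).2 ?_, (inf_sh z ω _).2 ?_, fun h => huv ?_⟩
    · rw [sub_add_cancel]; exact hu
    · rw [sub_add_cancel]; exact hv
    · have := (mem_clus_sh z ω _ _).1 h
      rw [sub_add_cancel, sub_add_cancel] at this
      exact this

theorem meas_sh (z : Fin d → ℤ) : Measurable (sh z : Cfg d → Cfg d) :=
  measurable_pi_lambda _ fun e => measurable_pi_apply (shE z e)

/-- an event determined by `W` is moved to one determined by `W + z` -/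
theorem det_sh (z : Fin d → ℤ) {W : Set (Ed d)} {B : Set (Cfg d)} (h : Det W B) :
    Det (shE z '' W) (sh z ⁻¹' B) := by
  intro ω ω' hω
  exact h _ _ fun e he => hω _ ⟨e, he, rfl⟩

/-! ### Boxes -/

/-- the box of radius `R` -/
noncomputable def box (d R : ℕ) : Finset (Fin d → ℤ) := Fintype.piFinset (fun _ => Finset.Icc (-(R : ℤ)) R)

theorem mem_box {R : ℕ} {x : Fin d → ℤ} : x ∈ box d R ↔ ∀ i, -(R : ℤ) ≤ x i ∧ x i ≤ R := by
  unfold box
  rw [Fintype.mem_piFinset]
  exact forall_congr' fun i => Finset.mem_Icc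

/-- the edges inside the box -/
noncomputable def bE (d R : ℕ) : Finset (Ed d) := (box d R).sym2.subtype NN

theorem mem_bE {R : ℕ} (a b : Fin d → ℤ) (h : NN s(a, b)) :
    (⟨s(a, b), h⟩ : Ed d) ∈ bE d R ↔ a ∈ box d R ∧ b ∈ box d R := by
  unfold bE
  rw [Finset.mem_subtype]
  exact Finset.mk_mem_sym2_iff

/-- close the edges of `F` -/
noncomputable def cl (F : Finset (Ed d)) (ω : Cfg d) : Cfg d := fun e => if e ∈ F then false else ω e

theorem meas_cl (F : Finset (Ed d)) : Measurable (cl F : Cfg d → Cfg d) := by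
  refine measurable_pi_lambda _ fun e => ?_
  unfold cl
  by_cases h : e ∈ F
  · simp only [if_pos h]; exact measurable_const
  · simp only [if_neg h]; exact measurable_pi_apply e

theorem cl_eq (F : Finset (Ed d)) (ω ω' : Cfg d) (h : ∀ e ∈ {f | f ∉ F}, ω e = ω' e) :
    cl F ω = cl F ω' := by
  funext e
  unfold cl
  by_cases he : e ∈ F
  · rw [if_pos he, if_pos he]
  · rw [if_neg he, if_neg he]
    exact h e he

theorem opn_cl (F : Finset (Ed d)) (ω : Cfg d) (a b : Fin d → ℤ) :
    Opn (cl F ω) a b ↔ ∃ h : NN s(a, b), (⟨s(a, b), h⟩ : Ed d) ∉ F ∧ ω ⟨s(a, b), h⟩ = true := by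
  constructor
  · rintro ⟨h, h'⟩
    unfold cl at h'
    by_cases hF : (⟨s(a, b), h⟩ : Ed d) ∈ F
    · rw [if_pos hF] at h'
      exact absurd h' (by decide)
    · rw [if_neg hF] at h'
      exact ⟨h, hF, h'⟩
  · rintro ⟨h, hF, h'⟩
    refine ⟨h, ?_⟩
    unfold cl
    rw [if_neg hF]
    exact h'

theorem clus_cl_sub (F : Finset (Ed d)) (ω : Cfg d) (x : Fin d → ℤ) :
    clus (cl F ω) x ⊆ clus ω x := by
  intro y hy
  have hy' : Relation.ReflTransGen (Opn (cl F ω)) x y := hy
  induction hy' with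
  | refl => exact clus_self _ _
  | @tail b c hb hbc ih =>
    obtain ⟨h, _, h'⟩ := (opn_cl F ω b c).1 hbc
    exact Relation.ReflTransGen.tail (ih hb) ⟨h, h'⟩

/-- if the component of `x` in the closed configuration avoids the box, it is the full cluster -/
theorem clus_cl_eq (R : ℕ) (ω : Cfg d) (x : Fin d → ℤ)
    (h : ∀ y ∈ box d R, y ∉ clus (cl (bE d R) ω) x) : clus ω x ⊆ clus (cl (bE d R) ω) x := by
  intro y hy
  have hy' : Relation.ReflTransGen (Opn ω) x y := hy
  induction hy' with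
  | refl => exact clus_self _ _
  | @tail b c _ hbc ih =>
    have hb := ih (by assumption)
    obtain ⟨hN, ho⟩ := hbc
    refine Relation.ReflTransGen.tail hb ((opn_cl _ _ _ _).2 ⟨hN, ?_, ho⟩)
    intro hF
    exact h b ((mem_bE b c hN).1 hF).1 hb

/-- every infinite component off the box edges meets the box -/
def YY (d R : ℕ) : Set (Cfg d) :=
  {ω | ∀ x, (clus (cl (bE d R) ω) x).Infinite → ∃ y ∈ box d R, y ∈ clus (cl (bE d R) ω) x}

theorem meas_YY (R : ℕ) : MeasurableSet (YY d R) := by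
  have h1 : MeasurableSet {ω : Cfg d | ∀ x, (clus ω x).Infinite → ∃ y ∈ box d R, y ∈ clus ω x} := by
    have : {ω : Cfg d | ∀ x, (clus ω x).Infinite → ∃ y ∈ box d R, y ∈ clus ω x} =
        ⋂ x, ({ω : Cfg d | (clus ω x).Infinite}ᶜ ∪ ⋃ y ∈ box d R, {ω : Cfg d | y ∈ clus ω x}) := by
      ext ω
      simp only [Set.mem_iInter, Set.mem_union, Set.mem_compl_iff, Set.mem_iUnion]
      constructor
      · intro h x
        by_cases hx : (clus ω x).Infinite
        · obtain ⟨y, hy, hy'⟩ := h x hx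
          exact Or.inr ⟨y, hy, hy'⟩
        · exact Or.inl hx
      · intro h x hx
        rcases h x with h' | ⟨y, hy, hy'⟩
        · exact absurd hx h'
        · exact ⟨y, hy, hy'⟩
    rw [this]
    exact MeasurableSet.iInter fun x => (meas_inf x).compl.union
      (Finset.measurableSet_biUnion _ fun y _ => meas_mem_clus x y)
  exact meas_cl (bE d R) h1

theorem det_YY (R : ℕ) : Det {f | f ∉ bE d R} (YY d R) := by
  intro ω ω' h
  unfold YY
  rw [Set.mem_ofPred_eq, Set.mem_ofPred_eq, cl_eq _ _ _ h]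

end Pool.Agent.H61.HP
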