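import Pool.Agent.H61.HP.Meas

set_option autoImplicit false

/-! From two infinite clusters to one. -/

namespace Pool.Agent.H61.HP

open MeasureTheory Pool.Agent.H29.FK Pool.Agent.H29.HP
open Classical symmDiff

variable {d : ℕ}

/-- all points of the box are joined by open edges of the box -/
theorem box_conn (R : ℕ) (ω : Cfg d) (hF : ∀ e ∈ bE d R, ω e = true) :
    ∀ (n : ℕ) (a : Fin d → ℤ), a ∈ box d R → ∑ i, (a i).natAbs = n →
      Relation.ReflTransGen (Opn ω) a 0 := by
  intro n
  induction n using Nat.strong_induction_on with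
  | _ n ih =>
    intro a ha hn
    by_cases h0 : a = 0
    · rw [h0]
    · obtain ⟨i, hi⟩ : ∃ i, a i ≠ 0 := by
        by_contra hcon
        push Not at hcon
        exact h0 (funext hcon)
      have hab := mem_box.1 ha
      obtain ⟨s, hs, hs2⟩ : ∃ s : ℤ, (s = 1 ∨ s = -1) ∧ (a i + s).natAbs < (a i).natAbs := by
        rcases lt_or_gt_of_ne hi with h | h
        · exact ⟨1, Or.inl rfl, by omega⟩
        · exact ⟨-1, Or.inr rfl, by omega⟩
      set b : Fin d → ℤ := Function.update a i (a i + s) with hb
      have hbi : b i = a i + s := by rw [hb, Function.update_self]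
      have hbj : ∀ j, j ≠ i → b j = a j := fun j hj => by
        rw [hb, Function.update_of_ne hj]
      have hbox : b ∈ box d R := by
        rw [mem_box]
        intro j
        by_cases hj : j = i
        · subst hj
          rw [hbi]
          have := hab j
          omega
        · rw [hbj j hj]; exact hab j
      have hsum : ∑ j, (b j).natAbs < n := by
        rw [← hn]
        refine Finset.sum_lt_sum (fun j _ => ?_) ⟨i, Finset.mem_univ i, by rw [hbi]; exact hs2⟩
        by_cases hj : j = i
        · subst hj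
          rw [hbi]; exact hs2.le
        · rw [hbj j hj]
      have hN : NN s(a, b) := by
        rcases hs with hs | hs
        · refine ⟨a, i, ?_⟩
          congr 1
          have : b = a + Pi.single i 1 := by
            funext j
            by_cases hj : j = i
            · subst hj
              rw [hbi, hs]; simp
            · rw [hbj j hj]; simp [hj]
          rw [this]
        · refine ⟨b, i, ?_⟩
          rw [Sym2.eq_swap]
          have : a = b + Pi.single i 1 := by
            funext j
            by_cases hj : j = i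
            · subst hj
              rw [Pi.add_apply, hbi, hs]; simp
            · rw [Pi.add_apply, hbj j hj]; simp [hj]
          congr 1
      exact Relation.ReflTransGen.head ⟨hN, hF _ ((mem_bE a b hN).2 ⟨ha, hbox⟩)⟩
        (ih _ hsum b hbox rfl)

/-- on `YY` with all box edges open there is at most one infinite cluster -/
theorem open_one (R : ℕ) (ω : Cfg d) (hY : ω ∈ YY d R) (hF : ∀ e ∈ bE d R, ω e = true) :
    ω ∉ EE d := by
  rintro ⟨u, v, hu, hv, huv⟩
  have key : ∀ x, (clus ω x).Infinite → ∃ y ∈ box d R, y ∈ clus ω x := by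
    intro x hx
    by_contra hcon
    push Not at hcon
    have h1 : clus ω x ⊆ clus (cl (bE d R) ω) x := clus_cl_eq R ω x (fun y hy hy' =>
      hcon y hy (clus_cl_sub _ _ _ hy'))
    obtain ⟨y, hy, hy'⟩ := hY x (hx.mono h1)
    exact hcon y hy (clus_cl_sub _ _ _ hy')
  obtain ⟨y, hy, hyu⟩ := key u hu
  obtain ⟨w, hw, hwv⟩ := key v hv
  have h1 : Relation.ReflTransGen (Opn ω) y w :=
    (box_conn R ω hF _ y hy rfl).trans (rtg_opn_symm (box_conn R ω hF _ w hw rfl))
  have h2 : Relation.ReflTransGen (Opn ω) u v :=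
    Relation.ReflTransGen.trans hyu (h1.trans (rtg_opn_symm hwv))
  exact huv h2

/-- with exactly two infinite clusters, `YY` holds for a large box -/
theorem two_YY (ω : Cfg d) (hE : ω ∈ EE d)
    (h2 : ∀ u v w : Fin d → ℤ, (clus ω u).Infinite → (clus ω v).Infinite →
      (clus ω w).Infinite → clus ω u = clus ω v ∨ clus ω u = clus ω w ∨ clus ω v = clus ω w) :
    ∃ R, ω ∈ YY d R := by
  obtain ⟨u, v, hu, hv, huv⟩ := hE
  obtain ⟨R, hR⟩ : ∃ R : ℕ, u ∈ box d R ∧ v ∈ box d R := by
    refine ⟨∑ i, ((u i).natAbs + (v i).natAbs), ?_, ?_⟩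
    · rw [mem_box]
      intro i
      have : (u i).natAbs + (v i).natAbs ≤ ∑ i, ((u i).natAbs + (v i).natAbs) :=
        Finset.single_le_sum (f := fun i => (u i).natAbs + (v i).natAbs)
          (fun _ _ => Nat.zero_le _) (Finset.mem_univ i)
      omega
    · rw [mem_box]
      intro i
      have : (u i).natAbs + (v i).natAbs ≤ ∑ i, ((u i).natAbs + (v i).natAbs) :=
        Finset.single_le_sum (f := fun i => (u i).natAbs + (v i).natAbs)
          (fun _ _ => Nat.zero_le _) (Finset.mem_univ i)
      omega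
  refine ⟨R, fun x hx => ?_⟩
  by_contra hcon
  push Not at hcon
  have h3 := clus_cl_eq R ω x hcon
  have hxi : (clus ω x).Infinite := hx.mono (clus_cl_sub _ _ _)
  have hne : clus ω u ≠ clus ω v := (clus_ne_iff ω u v).2 huv
  rcases h2 u v x hu hv hxi with h | h | h
  · exact hne h
  · exact hcon u hR.1 (h3 (h ▸ clus_self ω u))
  · exact hcon v hR.2 (h3 (h ▸ clus_self ω v))

/-- approximation by events determined by finitely many edges -/
theorem approx (μ : Measure (Cfg d)) [IsProbabilityMeasure μ] {A : Set (Cfg d)}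
    (hA : MeasurableSet A) {δ : ENNReal} (hδ : 0 < δ) :
    ∃ (W : Finset (Ed d)) (Z : Set (Cfg d)), MeasurableSet Z ∧ Det (↑W) Z ∧ μ (Z ∆ A) < δ := by
  obtain ⟨Z, hZ, hlt⟩ := exists_measure_symmDiff_lt_of_generateFrom_isSetRing (μ := μ)
    (isSetRing_measurableCylinders (α := fun _ : Ed d => Bool))
    ⟨{Set.univ}, Set.countable_singleton _, by
      rintro s rfl
      exact univ_mem_measurableCylinders _, by simp⟩
    (generateFrom_measurableCylinders (α := fun _ : Ed d => Bool)).symm hA hδ
  obtain ⟨W, S, hS, rfl⟩ := (mem_measurableCylinders Z).1 hZ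
  refine ⟨W, _, hS.cylinder W, ?_, hlt⟩
  intro ω ω' h
  rw [mem_cylinder, mem_cylinder]
  have : W.restrict ω = W.restrict ω' := by
    funext e
    exact h e.1 e.2
  rw [this]

/-- a translation along the hyperplane which moves `W` off the box -/
theorem far_shift (j : Fin d) (hd : 2 ≤ d) (W : Finset (Ed d)) (R : ℕ) :
    ∃ z : Fin d → ℤ, z j = 0 ∧ ∀ e ∈ W, shE z e ∉ bE d R := by
  obtain ⟨i, hij⟩ : ∃ i : Fin d, i ≠ j := by
    have : Nontrivial (Fin d) := Fin.nontrivial_iff_two_le.2 hd
    exact exists_ne j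
  have hrep : ∀ e : Ed d, ∃ a b : Fin d → ℤ, e.1 = s(a, b) := by
    intro e
    obtain ⟨x, l, h⟩ := e.2
    exact ⟨x, _, h⟩
  choose a b hab using hrep
  set n : ℤ := R + 1 + ∑ e ∈ W, ((a e i).natAbs : ℤ) with hn
  refine ⟨Pi.single i n, by rw [Pi.single_eq_of_ne hij.symm], fun e he hF => ?_⟩
  have h1 : (shE (Pi.single i n) e).1 = s(a e + Pi.single i n, b e + Pi.single i n) := by
    show Sym2.map (fun x => x + Pi.single i n) e.1 = _
    rw [hab e, Sym2.map_mk]
  have hNN : NN s(a e + Pi.single i n, b e + Pi.single i n) := by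
    rw [← h1]; exact (shE (Pi.single i n) e).2
  have h2 : shE (Pi.single i n) e = ⟨s(a e + Pi.single i n, b e + Pi.single i n), hNN⟩ :=
    Subtype.ext h1
  rw [h2] at hF
  have h3 := (mem_box.1 ((mem_bE _ _ hNN).1 hF).1 i).2
  rw [Pi.add_apply, Pi.single_eq_same] at h3
  have h4 : ((a e i).natAbs : ℤ) ≤ ∑ e ∈ W, ((a e i).natAbs : ℤ) :=
    Finset.single_le_sum (f := fun e => ((a e i).natAbs : ℤ)) (fun _ _ => by positivity) he
  omega

/-- N2 -/
theorem n2 : N2 := by
  intro d j ε μ hd hε hμ hIT hH h2
  have hEE0 : μ (EE d) = 0 := by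
    by_contra hne
    -- some box works with positive probability
    obtain ⟨R, hR⟩ : ∃ R, μ (EE d ∩ YY d R) ≠ 0 := by
      by_contra hcon
      push Not at hcon
      apply hne
      have h3 : μ (⋃ R, (EE d ∩ YY d R)) = 0 := measure_iUnion_null hcon
      refine measure_mono_null_ae ?_ h3
      filter_upwards [h2] with ω hω hE
      obtain ⟨R, hR⟩ := two_YY ω hE hω
      exact Set.mem_iUnion.2 ⟨R, hE, hR⟩
    set F := bE d R with hF
    set O : Set (Cfg d) := {ω | ∀ e ∈ F, ω e = true} with hO
    set a : ℝ := ε ^ F.card with ha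
    have ha0 : 0 < a := pow_pos hε _
    set m : ℝ := μ.real (EE d ∩ YY d R) with hm
    have hm0 : 0 < m := by
      rw [hm, measureReal_def]
      exact ENNReal.toReal_pos hR (measure_ne_top μ _)
    -- the inequality for every precision
    have key : ∀ δ : ℝ, 0 < δ → a * m ≤ (1 + a) * δ := by
      intro δ hδ
      obtain ⟨W, Z, hZm, hZd, hZ⟩ := approx μ (meas_EE (d := d)) (ENNReal.ofReal_pos.2 hδ)
      obtain ⟨z, hz, hzW⟩ := far_shift j hd W R
      set Z' : Set (Cfg d) := sh z ⁻¹' Z with hZ'
      have hZ'm : MeasurableSet Z' := meas_sh z hZm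
      have hZ'd : Det {f | f ∉ F} Z' := by
        refine Det.mono ?_ (det_sh z hZd)
        rintro f ⟨e, he, rfl⟩
        exact hzW e he
      have hsd : μ.real (Z' ∆ EE d) < δ := by
        have e1 : Z' ∆ EE d = sh z ⁻¹' (Z ∆ EE d) := by
          have := sh_EE (d := d) z
          ext ω
          simp only [Set.mem_symmDiff, hZ', Set.mem_preimage]
          have h3 : (sh z ω ∈ EE d) ↔ ω ∈ EE d := by
            conv_rhs => rw [← this]
            rfl
          rw [h3]
        have e2 : μ (Z' ∆ EE d) = μ (Z ∆ EE d) := by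
          rw [e1, ← Measure.map_apply (meas_sh z) (hZm.symmDiff meas_EE), hH z hz]
        rw [measureReal_def, e2]
        exact (ENNReal.lt_ofReal_iff_toReal_lt (measure_ne_top μ _)).1 hZ
      set B : Set (Cfg d) := Z' ∩ YY d R with hB
      have hBm : MeasurableSet B := hZ'm.inter (meas_YY R)
      have hBd : Det {f | f ∉ F} B := hZ'd.inter (det_YY R)
      have h3 := hIT.insert F hBm hBd
      have h4 : a * μ.real B ≤ μ.real (B ∩ O) := by
        have h5 := ENNReal.toReal_mono (measure_ne_top μ _) h3
        rw [ENNReal.toReal_mul, ENNReal.toReal_pow, ENNReal.toReal_ofReal hε.le] at h5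
        exact h5
      have h5 : m ≤ μ.real B + δ := by
        have hsub : EE d ∩ YY d R ⊆ B ∪ (Z' ∆ EE d) := by
          rintro ω ⟨hE, hY⟩
          by_cases hZω : ω ∈ Z'
          · exact Or.inl ⟨hZω, hY⟩
          · exact Or.inr (Or.inr ⟨hE, hZω⟩)
        have h6 := (measureReal_mono hsub (measure_ne_top μ _)).trans
          (measureReal_union_le (μ := μ) B (Z' ∆ EE d))
        linarith
      have h6 : μ.real (B ∩ O) ≤ δ := by
        have hsub : B ∩ O ⊆ Z' ∆ EE d := by
          rintro ω ⟨⟨hZω, hY⟩, hOω⟩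
          exact Or.inl ⟨hZω, open_one R ω hY hOω⟩
        exact (measureReal_mono hsub (measure_ne_top μ _)).trans hsd.le
      nlinarith
    have h7 := key (a * m / (2 * (1 + a))) (by positivity)
    have h8 : (1 + a) * (a * m / (2 * (1 + a))) = a * m / 2 := by
      field_simp
    rw [h8] at h7
    have h9 : 0 < a * m := mul_pos ha0 hm0
    linarith
  have hae : ∀ᵐ ω ∂μ, ω ∉ EE d := measure_eq_zero_iff_ae_notMem.1 hEE0
  filter_upwards [hae] with ω hω u v hu hv
  by_contra hne
  exact hω ⟨u, v, hu, hv, (clus_ne_iff ω u v).1 hne⟩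

end Pool.Agent.H61.HP
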